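import Pool.Agent.H30.MD.Gen1

set_option autoImplicit false
set_option linter.unusedSectionVars false
set_option linter.unusedVariables false

namespace Pool.Agent.H30.MD

open MeasureTheory Module Metric Matrix Filter Topology
open scoped ENNReal

variable {N : Type} [Fintype N] [DecidableEq N]

/-- the perturbation estimate -/
theorem est (α β z α' β' z' Q c : Matrix N N ℂ) (w w' C M ρ : ℝ) (ξ η : N → ℂ)
    (hC : 0 < C) (hM : 1 ≤ M) (hρ : 0 < ρ) (hw' : 0 < w' ∧ w' ≤ C) (hw : 0 < w ∧ w ≤ C)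
    (hc : ∀ k l, ‖c k l‖ ≤ M) (hb : ∀ k l, ‖α k l‖ ≤ C ∧ ‖β k l‖ ≤ C ∧ ‖z k l‖ ≤ C)
    (hb' : ∀ k l, ‖α' k l‖ ≤ C ∧ ‖β' k l‖ ≤ C ∧ ‖z' k l‖ ≤ C)
    (hd : |w - w'| ≤ ρ ∧ ∀ k l, ‖α k l - α' k l‖ ≤ ρ ∧ ‖β k l - β' k l‖ ≤ ρ ∧
      ‖z k l - z' k l‖ ≤ ρ) (hQ : ∀ k l, ‖Q k l‖ ≤ C)
    (hξ : ‖ξ‖ ≤ M) (h1 : ‖α *ᵥ ξ‖ = 1) (h0 : β *ᵥ (((w : ℂ) • c + z) *ᵥ (α *ᵥ ξ)) = 0)
    (hη : ‖η - α' *ᵥ ξ‖ ≤ ρ) (n C₂ C₆ C₇ C₈ C₉ : ℝ) (hn : n = Fintype.card N)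
    (h2 : C₂ = n * M + 1) (h6 : C₆ = C * M + C) (h7 : C₇ = n * C₆ * C₂ + n * (M + 1))
    (h8 : C₈ = n * C * C₇ + n * (n * C₆)) (h9 : C₉ = n * C * C₈) :
    ‖η - α *ᵥ ξ‖ ≤ C₂ * ρ ∧ ‖(Q * β') *ᵥ (((w' : ℂ) • c + z') *ᵥ η)‖ ≤ C₉ * ρ := by
  have hn0 : 0 ≤ n := by rw [hn]; positivity
  have hM0 : 0 < M := by linarith
  have hC₂ : 0 ≤ C₂ := by rw [h2]; positivity
  have hC₆ : 0 ≤ C₆ := by rw [h6]; positivity
  have hC₇ : 0 ≤ C₇ := by rw [h7]; positivity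
  have hC₈ : 0 ≤ C₈ := by rw [h8]; positivity
  have a1 : ‖η - α *ᵥ ξ‖ ≤ C₂ * ρ := by
    have e : η - α *ᵥ ξ = (η - α' *ᵥ ξ) - (α - α') *ᵥ ξ := by
      rw [Matrix.sub_mulVec]; abel
    rw [e]
    have b1 : ‖(α - α') *ᵥ ξ‖ ≤ n * ρ * M := by
      refine (norm_mulVec_le' (α - α') ρ hρ.le (fun k l => (hd.2 k l).1) ξ).trans ?_
      rw [hn]; gcongr
    calc _ ≤ ‖η - α' *ᵥ ξ‖ + ‖(α - α') *ᵥ ξ‖ := norm_sub_le _ _
      _ ≤ ρ + n * ρ * M := add_le_add hη b1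
      _ = C₂ * ρ := by rw [h2]; ring
  refine ⟨a1, ?_⟩
  set u := α *ᵥ ξ with hu
  -- entries of w c + z
  have ent : ∀ (w : ℝ) (z : Matrix N N ℂ), 0 < w ∧ w ≤ C → (∀ k l, ‖z k l‖ ≤ C) →
      ∀ k l, ‖((w : ℂ) • c + z) k l‖ ≤ C₆ := by
    intro w z hw hz k l
    rw [Matrix.add_apply, Matrix.smul_apply, smul_eq_mul]
    calc ‖(w : ℂ) * c k l + z k l‖ ≤ ‖(w : ℂ) * c k l‖ + ‖z k l‖ := norm_add_le _ _
      _ ≤ C * M + C := by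
        apply add_le_add _ (hz k l)
        rw [norm_mul, Complex.norm_real, Real.norm_of_nonneg hw.1.le]
        exact mul_le_mul hw.2 (hc k l) (norm_nonneg _) hC.le
      _ = C₆ := h6.symm
  have vi : ‖((w : ℂ) • c + z) *ᵥ u‖ ≤ n * C₆ := by
    refine (norm_mulVec_le' _ C₆ hC₆ (ent w z hw (fun k l => (hb k l).2.2)) u).trans ?_
    rw [h1, mul_one, hn]
  have dv : ‖((w' : ℂ) • c + z') *ᵥ η - ((w : ℂ) • c + z) *ᵥ u‖ ≤ C₇ * ρ := by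
    have e : ((w' : ℂ) • c + z') *ᵥ η - ((w : ℂ) • c + z) *ᵥ u =
        ((w' : ℂ) • c + z') *ᵥ (η - u) +
          (((w' : ℂ) • c + z') - ((w : ℂ) • c + z)) *ᵥ u := by
      rw [Matrix.mulVec_sub, Matrix.sub_mulVec]; abel
    rw [e]
    have b1 : ‖((w' : ℂ) • c + z') *ᵥ (η - u)‖ ≤ n * C₆ * (C₂ * ρ) := by
      refine (norm_mulVec_le' _ C₆ hC₆ (ent w' z' hw' (fun k l => (hb' k l).2.2)) _).trans ?_
      rw [← hn]; gcongr
    have b2 : ‖(((w' : ℂ) • c + z') - ((w : ℂ) • c + z)) *ᵥ u‖ ≤ n * (ρ * M + ρ) := by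
      refine (norm_mulVec_le' _ (ρ * M + ρ) (by positivity) ?_ _).trans ?_
      · intro k l
        rw [Matrix.sub_apply, Matrix.add_apply, Matrix.add_apply, Matrix.smul_apply,
          Matrix.smul_apply, smul_eq_mul, smul_eq_mul]
        have e2 : (w' : ℂ) * c k l + z' k l - ((w : ℂ) * c k l + z k l) =
            -(((w - w' : ℝ) : ℂ) * c k l + (z k l - z' k l)) := by push_cast; ring
        rw [e2, norm_neg]
        refine (norm_add_le _ _).trans (add_le_add ?_ (hd.2 k l).2.2)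
        rw [norm_mul, Complex.norm_real, Real.norm_eq_abs]
        exact mul_le_mul hd.1 (hc k l) (norm_nonneg _) hρ.le
      · rw [h1, mul_one, hn]
    calc _ ≤ n * C₆ * (C₂ * ρ) + n * (ρ * M + ρ) := (norm_add_le _ _).trans (add_le_add b1 b2)
      _ = C₇ * ρ := by rw [h7]; ring
  have bv : ‖β' *ᵥ (((w' : ℂ) • c + z') *ᵥ η)‖ ≤ C₈ * ρ := by
    have e : β' *ᵥ (((w' : ℂ) • c + z') *ᵥ η) =
        β' *ᵥ (((w' : ℂ) • c + z') *ᵥ η - ((w : ℂ) • c + z) *ᵥ u) -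
          (β - β') *ᵥ (((w : ℂ) • c + z) *ᵥ u) := by
      rw [Matrix.mulVec_sub, Matrix.sub_mulVec, h0]; abel
    rw [e]
    have b1 : ‖β' *ᵥ (((w' : ℂ) • c + z') *ᵥ η - ((w : ℂ) • c + z) *ᵥ u)‖ ≤ n * C * (C₇ * ρ) := by
      refine (norm_mulVec_le' _ C hC.le (fun k l => (hb' k l).2.1) _).trans ?_
      rw [← hn]; gcongr
    have b2 : ‖(β - β') *ᵥ (((w : ℂ) • c + z) *ᵥ u)‖ ≤ n * ρ * (n * C₆) := by
      refine (norm_mulVec_le' _ ρ hρ.le (fun k l => (hd.2 k l).2.1) _).trans ?_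
      rw [← hn]; gcongr
    calc _ ≤ n * C * (C₇ * ρ) + n * ρ * (n * C₆) := (norm_sub_le _ _).trans (add_le_add b1 b2)
      _ = C₈ * ρ := by rw [h8]; ring
  rw [← Matrix.mulVec_mulVec]
  refine (norm_mulVec_le' _ C hC.le hQ _).trans ?_
  rw [← hn, h9]
  calc n * C * ‖β' *ᵥ (((w' : ℂ) • c + z') *ᵥ η)‖ ≤ n * C * (C₈ * ρ) := by gcongr
    _ = n * C * C₈ * ρ := by ring

/-- the covering of the bad set -/
theorem bad_cover (I : Type) (α β z : I → Matrix N N ℂ)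
    (w : I → ℝ) (D Δ : ℕ) (C : ℝ) (hD : D < 2 * Δ) (hC : 0 < C)
    (hw : ∀ i, 0 < w i ∧ w i ≤ C)
    (hb : ∀ i k l, ‖α i k l‖ ≤ C ∧ ‖β i k l‖ ≤ C ∧ ‖z i k l‖ ≤ C)
    (hcov : ∀ ρ : ℝ, 0 < ρ → ρ ≤ 1 → ∃ F : Finset I, (F.card : ℝ) ≤ C * (1 / ρ) ^ D ∧
      ∀ i, ∃ j ∈ F, |w i - w j| ≤ ρ ∧ ∀ k l, ‖α i k l - α j k l‖ ≤ ρ ∧
        ‖β i k l - β j k l‖ ≤ ρ ∧ ‖z i k l - z j k l‖ ≤ ρ)
    (Q : I → Matrix N N ℂ) (hQ : ∀ i, (∀ k l, ‖Q i k l‖ ≤ C) ∧ IsStarProjection (Q i * β i) ∧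
      (α i).rank + Δ ≤ (Q i * β i).rank) (M : ℝ) (hM : 1 ≤ M) :
    ∃ C₁ C₂ ρ₀ : ℝ, 0 < ρ₀ ∧ 0 ≤ C₁ ∧ 0 ≤ C₂ ∧ ∀ ρ : ℝ, 0 < ρ → ρ ≤ ρ₀ →
      ∃ G : Finset (N → N → ℂ), (G.card : ℝ) * ρ ^ (2 * (Fintype.card N * Fintype.card N)) ≤ C₁ * ρ ∧
      ∀ c : N → N → ℂ, ‖c‖ ≤ M → (∃ i, 1 / M ≤ w i ∧ ∃ ξ : N → ℂ, ‖ξ‖ ≤ M ∧ ‖α i *ᵥ ξ‖ = 1 ∧
        β i *ᵥ (((w i : ℂ) • Matrix.of c + z i) *ᵥ (α i *ᵥ ξ)) = 0) →
        ∃ y ∈ G, ‖c - y‖ ≤ C₂ * ρ := by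
  classical
  obtain ⟨n, hn⟩ : ∃ n : ℝ, n = Fintype.card N := ⟨_, rfl⟩
  obtain ⟨C₂, h2⟩ : ∃ x : ℝ, x = n * M + 1 := ⟨_, rfl⟩
  obtain ⟨C₆, h6⟩ : ∃ x : ℝ, x = C * M + C := ⟨_, rfl⟩
  obtain ⟨C₇, h7⟩ : ∃ x : ℝ, x = n * C₆ * C₂ + n * (M + 1) := ⟨_, rfl⟩
  obtain ⟨C₈, h8⟩ : ∃ x : ℝ, x = n * C * C₇ + n * (n * C₆) := ⟨_, rfl⟩
  obtain ⟨C₉, h9⟩ : ∃ x : ℝ, x = n * C * C₈ := ⟨_, rfl⟩
  have hn0 : 0 ≤ n := by rw [hn]; positivity
  have hM0 : 0 < M := by linarith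
  have hC₂ : 1 ≤ C₂ := by
    have : 0 ≤ n * M := by positivity
    linarith
  have hC₆ : 0 ≤ C₆ := by rw [h6]; positivity
  have hC₇ : 0 ≤ C₇ := by rw [h7]; positivity
  have hC₈ : 0 ≤ C₈ := by rw [h8]; positivity
  have hC₉ : 0 ≤ C₉ := by rw [h9]; positivity
  obtain ⟨R₁, hR₁⟩ : ∃ x : ℝ, x = n * C * M + 1 := ⟨_, rfl⟩
  obtain ⟨R₂, hR₂⟩ : ∃ x : ℝ, x = 2 * M + 8 * M * C₉ + 1 := ⟨_, rfl⟩
  have hR₁1 : 1 ≤ R₁ := by
    have : 0 ≤ n * C * M := by positivity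
    linarith
  have hR₂1 : 1 ≤ R₂ := by
    have : 0 ≤ 2 * M + 8 * M * C₉ := by positivity
    linarith
  obtain ⟨B, hB⟩ : ∃ x : ℝ, x = 3 * (R₁ + R₂) := ⟨_, rfl⟩
  have hB1 : 1 ≤ B := by linarith
  refine ⟨C * B ^ (2 * (Fintype.card N * Fintype.card N)), 1 + 8 * M * C₉, 1 / (2 * (C₂ + M)),
    by positivity, by positivity, by positivity, ?_⟩
  intro ρ hρ hρ0
  have hρle : ρ * (2 * (C₂ + M)) ≤ 1 := by
    rwa [le_div_iff₀ (by positivity)] at hρ0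
  have hρ1 : ρ ≤ 1 := by nlinarith
  have hρM : ρ ≤ 1 / (2 * M) := by
    rw [le_div_iff₀ (by positivity)]; nlinarith
  have hρC₂ : C₂ * ρ ≤ 1 / 2 := by nlinarith
  obtain ⟨F, hF, hF'⟩ := hcov ρ hρ hρ1
  -- coverings of the ranges
  have hG : ∀ j : I, ∃ G : Finset (LinearMap.range (α j).mulVecLin),
      (G.card : ℝ) ≤ (3 * R₁ / ρ) ^ (2 * (α j).rank) ∧
      ∀ x : LinearMap.range (α j).mulVecLin, ‖x‖ ≤ R₁ → ∃ y ∈ G, ‖x - y‖ ≤ ρ := by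
    intro j
    obtain ⟨G, h1, h2⟩ := cover_ball (E := LinearMap.range (α j).mulVecLin) R₁ ρ hρ
      (by linarith)
    refine ⟨G, ?_, h2⟩
    have hfr : finrank ℝ (LinearMap.range (α j).mulVecLin) =
      2 * (α j).rank := real_finrank
    rwa [hfr] at h1
  choose G hG1 hG2 using hG
  -- coverings of the matrices
  have hH : ∀ (j : I) (η : N → ℂ), ∃ H : Finset (N → N → ℂ),
      (1 / 2 ≤ ‖η‖ → 1 / (2 * M) ≤ w j →
        (H.card : ℝ) ≤ (3 * R₂ / ρ) ^ (2 * finrank ℂ (LinearMap.ker (Lmap (Q j * β j) η))) ∧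
        ∀ c : N → N → ℂ, ‖c‖ ≤ M →
          ‖(Q j * β j) *ᵥ (((w j : ℂ) • Matrix.of c + z j) *ᵥ η)‖ ≤ C₉ * ρ →
          ∃ y ∈ H, ‖c - y‖ ≤ (1 + 8 * M * C₉) * ρ) ∧
      (¬ (1 / 2 ≤ ‖η‖ ∧ 1 / (2 * M) ≤ w j) → H = ∅) := by
    intro j η
    by_cases h : 1 / 2 ≤ ‖η‖ ∧ 1 / (2 * M) ≤ w j
    swap
    · exact ⟨∅, fun h1 h2 => absurd ⟨h1, h2⟩ h, fun _ => rfl⟩
    obtain ⟨H, hH1, hH2⟩ := cover_mat (Q j * β j) (hQ j).2.1.isIdempotentElem η h.1 M (w j)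
      (1 / (2 * M)) (C₉ * ρ) R₂ ρ (z j) (by positivity) h.2 (by positivity) hρ (by linarith) (by
        rw [hR₂]
        have : 4 * (C₉ * ρ) / (1 / (2 * M)) = 8 * M * C₉ * ρ := by field_simp; ring
        rw [this]
        have : 8 * M * C₉ * ρ ≤ 8 * M * C₉ * 1 := by gcongr
        linarith)
    refine ⟨H, fun _ _ => ⟨hH1, ?_⟩, fun h' => absurd h h'⟩
    intro c hc hc2
    obtain ⟨y, hy, hy2⟩ := hH2 c hc hc2
    refine ⟨y, hy, hy2.trans (le_of_eq ?_)⟩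
    field_simp
    ring
  choose H hH1 hH2 using hH
  refine ⟨F.biUnion fun j => (G j).biUnion fun η => H j η, ?_, ?_⟩
  · -- cardinality
    rcases F.eq_empty_or_nonempty with hFe | hFne
    · subst hFe
      rw [Finset.biUnion_empty, Finset.card_empty, Nat.cast_zero, zero_mul]
      positivity
    have hHb : ∀ j η, (((H j η).card : ℝ) ≤
        (B / ρ) ^ (2 * (Fintype.card N * Fintype.card N - (Q j * β j).rank))) := by
      intro j η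
      have hBρ : 1 ≤ B / ρ := by
        rw [le_div_iff₀ hρ]; linarith
      by_cases h : 1 / 2 ≤ ‖η‖ ∧ 1 / (2 * M) ≤ w j
      swap
      · rw [hH2 j η h, Finset.card_empty, Nat.cast_zero]
        positivity
      refine (hH1 j η h.1 h.2).1.trans ?_
      have hk := finrank_ker (Q j * β j) η h.1
      have : finrank ℂ (LinearMap.ker (Lmap (Q j * β j) η)) =
          Fintype.card N * Fintype.card N - (Q j * β j).rank := by omega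
      rw [this]
      apply pow_le_pow_left₀ (by positivity)
      apply div_le_div_of_nonneg_right _ hρ.le
      linarith
    have hk2 : ∀ j, (Q j * β j).rank ≤ Fintype.card N * Fintype.card N := by
      intro j
      have h1 := Matrix.rank_le_card_width (Q j * β j)
      rcases Nat.eq_zero_or_pos (Fintype.card N) with h0 | h0
      · rw [h0] at h1 ⊢; omega
      · exact h1.trans (Nat.le_mul_of_pos_left _ h0)
    have hj : ∀ j, (((G j).biUnion fun η => H j η).card : ℝ) ≤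
        (B / ρ) ^ (2 * (Fintype.card N * Fintype.card N) - 2 * Δ) := by
      intro j
      have hBρ : 1 ≤ B / ρ := by
        rw [le_div_iff₀ hρ]; linarith
      have c1 : (((G j).biUnion fun η => H j η).card : ℝ) ≤
          ∑ η ∈ G j, ((H j η).card : ℝ) := by
        exact_mod_cast Finset.card_biUnion_le
      refine c1.trans ?_
      have c2 : ∑ η ∈ G j, ((H j η).card : ℝ) ≤ (G j).card *
          (B / ρ) ^ (2 * (Fintype.card N * Fintype.card N - (Q j * β j).rank)) := by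
        rw [← nsmul_eq_mul]
        exact Finset.sum_le_card_nsmul _ _ _ (fun η _ => hHb j η)
      refine c2.trans ?_
      have c3 : ((G j).card : ℝ) ≤ (B / ρ) ^ (2 * (α j).rank) := by
        refine (hG1 j).trans ?_
        apply pow_le_pow_left₀ (by positivity)
        apply div_le_div_of_nonneg_right _ hρ.le
        linarith
      calc _ ≤ (B / ρ) ^ (2 * (α j).rank) *
            (B / ρ) ^ (2 * (Fintype.card N * Fintype.card N - (Q j * β j).rank)) := by gcongr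
        _ = (B / ρ) ^ (2 * (α j).rank +
            2 * (Fintype.card N * Fintype.card N - (Q j * β j).rank)) := (pow_add _ _ _).symm
        _ ≤ _ := by
          apply pow_le_pow_right₀ hBρ
          have := (hQ j).2.2
          have := hk2 j
          omega
    obtain ⟨j₀, hj₀⟩ := hFne
    have hΔ : 2 * Δ ≤ 2 * (Fintype.card N * Fintype.card N) := by
      have := (hQ j₀).2.2
      have := hk2 j₀
      omega
    have c4 : ((F.biUnion fun j => (G j).biUnion fun η => H j η).card : ℝ) ≤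
        F.card * (B / ρ) ^ (2 * (Fintype.card N * Fintype.card N) - 2 * Δ) := by
      have c1 : ((F.biUnion fun j => (G j).biUnion fun η => H j η).card : ℝ) ≤
          ∑ j ∈ F, (((G j).biUnion fun η => H j η).card : ℝ) := by
        exact_mod_cast Finset.card_biUnion_le
      refine c1.trans ?_
      rw [← nsmul_eq_mul]
      exact Finset.sum_le_card_nsmul _ _ _ (fun j _ => hj j)
    obtain ⟨e, he⟩ : ∃ e, e + 2 * Δ = 2 * (Fintype.card N * Fintype.card N) :=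
      ⟨_, Nat.sub_add_cancel hΔ⟩
    obtain ⟨f, hf⟩ : ∃ f, D + 1 + f = 2 * Δ := ⟨2 * Δ - (D + 1), by omega⟩
    have he' : 2 * (Fintype.card N * Fintype.card N) - 2 * Δ = e := by omega
    rw [he'] at c4
    rw [← he]
    calc _ ≤ (F.card * (B / ρ) ^ e) * ρ ^ (e + 2 * Δ) := by gcongr
      _ ≤ ((C * (1 / ρ) ^ D) * (B / ρ) ^ e) * ρ ^ (e + 2 * Δ) := by gcongr
      _ = C * B ^ e * (ρ * ρ ^ f) := by
          rw [← hf, div_pow, div_pow, one_pow, pow_add, pow_add, pow_add, pow_one]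
          field_simp
      _ ≤ C * B ^ (e + 2 * Δ) * (ρ * 1) := by
          have q1 : B ^ e ≤ B ^ (e + 2 * Δ) := pow_le_pow_right₀ hB1 (by omega)
          have q2 : ρ ^ f ≤ 1 := pow_le_one₀ hρ.le hρ1
          have q3 : 0 ≤ B := by linarith
          exact mul_le_mul (mul_le_mul_of_nonneg_left q1 hC.le)
            (mul_le_mul_of_nonneg_left q2 hρ.le) (by positivity) (by positivity)
      _ = C * B ^ (e + 2 * Δ) * ρ := by ring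
  · -- covering
    rintro c hc ⟨i, hwi, ξ, hξ, h1, h0⟩
    obtain ⟨j, hjF, hj⟩ := hF' i
    have hck : ∀ k l, ‖(Matrix.of c) k l‖ ≤ M := fun k l =>
      ((norm_le_pi_norm (c k) l).trans (norm_le_pi_norm c k)).trans hc
    have hαξ : ‖α j *ᵥ ξ‖ ≤ R₁ := by
      refine (norm_mulVec_le' _ C hC.le (fun k l => (hb j k l).1) _).trans ?_
      rw [← hn, hR₁]
      have : n * C * ‖ξ‖ ≤ n * C * M := by gcongr
      linarith
    obtain ⟨η, hη, hη2⟩ := hG2 j ⟨α j *ᵥ ξ, ⟨ξ, rfl⟩⟩ hαξ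
    have hη3 : ‖(η : N → ℂ) - α j *ᵥ ξ‖ ≤ ρ := by
      rw [norm_sub_rev]; exact hη2
    obtain ⟨a1, a2⟩ := est (α i) (β i) (z i) (α j) (β j) (z j) (Q j) (Matrix.of c) (w i) (w j)
      C M ρ ξ η hC hM hρ (hw j) (hw i) hck (hb i) (hb j) hj (hQ j).1 hξ h1 h0 hη3
      n C₂ C₆ C₇ C₈ C₉ hn h2 h6 h7 h8 h9
    have hη4 : 1 / 2 ≤ ‖(η : N → ℂ)‖ := by
      have : ‖α i *ᵥ ξ‖ ≤ ‖(η : N → ℂ)‖ + ‖(η : N → ℂ) - α i *ᵥ ξ‖ := by
        have h3 := norm_sub_norm_le (α i *ᵥ ξ) (η : N → ℂ)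
        rw [norm_sub_rev] at h3
        linarith
      rw [h1] at this
      linarith
    have hwj : 1 / (2 * M) ≤ w j := by
      have h3 := (abs_le.1 hj.1).2
      have h4 : 1 / M = 1 / (2 * M) + 1 / (2 * M) := by field_simp; norm_num
      linarith
    obtain ⟨y, hy, hy2⟩ := (hH1 j η hη4 hwj).2 c hc a2
    refine ⟨y, ?_, hy2⟩
    rw [Finset.mem_biUnion]
    refine ⟨j, hjF, ?_⟩
    rw [Finset.mem_biUnion]
    exact ⟨η, hη, hy⟩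


/-- **GEN** without the interface -/
theorem gen (I : Type) (α β z : I → Matrix N N ℂ)
    (w : I → ℝ) (D Δ : ℕ) (C : ℝ) (hD : D < 2 * Δ) (hC : 0 < C)
    (hw : ∀ i, 0 < w i ∧ w i ≤ C)
    (hb : ∀ i k l, ‖α i k l‖ ≤ C ∧ ‖β i k l‖ ≤ C ∧ ‖z i k l‖ ≤ C)
    (hcov : ∀ ρ : ℝ, 0 < ρ → ρ ≤ 1 → ∃ F : Finset I, (F.card : ℝ) ≤ C * (1 / ρ) ^ D ∧
      ∀ i, ∃ j ∈ F, |w i - w j| ≤ ρ ∧ ∀ k l, ‖α i k l - α j k l‖ ≤ ρ ∧
        ‖β i k l - β j k l‖ ≤ ρ ∧ ‖z i k l - z j k l‖ ≤ ρ)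
    (hQ : ∀ i, ∃ Q : Matrix N N ℂ, (∀ k l, ‖Q k l‖ ≤ C) ∧ IsStarProjection (Q * β i) ∧
      (α i).rank + Δ ≤ (Q * β i).rank) :
    ∃ c : Matrix N N ℂ, ∀ i, ∀ ξ : N → ℂ,
      β i *ᵥ ((((w i : ℝ) : ℂ) • c + z i) *ᵥ (α i *ᵥ ξ)) = 0 → α i *ᵥ ξ = 0 := by
  classical
  choose Q hQ using hQ
  let μ : Measure (N → N → ℂ) := Measure.addHaar
  set bad : ℕ → Set (N → N → ℂ) := fun m => {c | ‖c‖ ≤ (m : ℝ) + 1 ∧
    ∃ i, 1 / ((m : ℝ) + 1) ≤ w i ∧ ∃ ξ : N → ℂ, ‖ξ‖ ≤ (m : ℝ) + 1 ∧ ‖α i *ᵥ ξ‖ = 1 ∧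
        β i *ᵥ (((w i : ℂ) • Matrix.of c + z i) *ᵥ (α i *ᵥ ξ)) = 0} with hbad
  have hnull : ∀ m, μ (bad m) = 0 := by
    intro m
    obtain ⟨C₁, C₂, ρ₀, h0, h1, h2, h3⟩ := bad_cover I α β z w D Δ C hD hC hw hb hcov Q hQ
      ((m : ℝ) + 1) (by have : (0 : ℝ) ≤ m := m.cast_nonneg; linarith)
    refine null_of_cover μ (bad m) C₁ C₂ ρ₀ h0 h1 h2 ?_
    intro ρ hρ hρ0
    obtain ⟨G, hG, hG2⟩ := h3 ρ hρ hρ0
    refine ⟨G, ?_, ?_⟩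
    · have hfr : finrank ℝ (N → N → ℂ) = 2 * (Fintype.card N * Fintype.card N) := by
        rw [real_finrank]
        have := Module.finrank_matrix ℂ ℂ N N
        rw [Module.finrank_self, mul_one] at this
        rw [← this]
        rfl
      rw [hfr]
      exact hG
    · rintro c ⟨hc, hc2⟩
      exact hG2 c hc hc2
  have hall : μ (⋃ m, bad m) = 0 := measure_iUnion_null hnull
  have hne : (⋃ m, bad m) ≠ Set.univ := by
    intro h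
    rw [h] at hall
    exact (isOpen_univ.measure_ne_zero μ Set.univ_nonempty) hall
  obtain ⟨c, hc⟩ := (Set.ne_univ_iff_exists_notMem _).1 hne
  refine ⟨Matrix.of c, ?_⟩
  intro i ξ h
  by_contra hξ
  apply hc
  have hpos : 0 < ‖α i *ᵥ ξ‖ := norm_pos_iff.2 hξ
  obtain ⟨m, hm⟩ := exists_nat_gt (‖c‖ + 1 / w i + ‖ξ‖ / ‖α i *ᵥ ξ‖)
  have hwi := (hw i).1
  have p1 : 0 ≤ ‖c‖ := norm_nonneg _
  have p2 : 0 < 1 / w i := by positivity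
  have p3 : 0 ≤ ‖ξ‖ / ‖α i *ᵥ ξ‖ := by positivity
  refine Set.mem_iUnion.2 ⟨m, ?_, i, ?_, ((‖α i *ᵥ ξ‖⁻¹ : ℝ) : ℂ) • ξ, ?_, ?_, ?_⟩
  · linarith
  · rw [one_div_le (by positivity) hwi]
    linarith
  · rw [norm_smul, Complex.norm_real, Real.norm_of_nonneg (by positivity), inv_mul_eq_div]
    linarith
  · rw [Matrix.mulVec_smul, norm_smul, Complex.norm_real, Real.norm_of_nonneg (by positivity)]
    exact inv_mul_cancel₀ hpos.ne'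
  · rw [Matrix.mulVec_smul, Matrix.mulVec_smul, Matrix.mulVec_smul, h, smul_zero]

end Pool.Agent.H30.MD
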