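import Pool.Agent.H252.MD.Iface
import Pool.Agent.H30.MD.Gen2

set_option autoImplicit false

namespace Pool.Agent.H30.MD

theorem s_GEN : Pool.Agent.H252.MD.S_GEN := by
  intro N _ _ I α β z w D Δ C hD hC hw hb hcov hQ
  exact gen I α β z w D Δ C hD hC hw hb hcov hQ

end Pool.Agent.H30.MD
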