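import Mathlib

set_option autoImplicit false

namespace Pool.Agent.H30.MD

open MeasureTheory Module Metric
open scoped ENNReal

theorem card_sep {E : Type*} [NormedAddCommGroup E] [NormedSpace ℝ E] [FiniteDimensional ℝ E]
    (s : Finset E) (R r : ℝ) (hr : 0 < r) (hR : 0 ≤ R) (hs : ∀ c ∈ s, ‖c‖ ≤ R)
    (h : ∀ c ∈ s, ∀ d ∈ s, c ≠ d → r ≤ ‖c - d‖) :
    (s.card : ℝ) ≤ ((2 * R + r) / r) ^ finrank ℝ E := by
  borelize E
  let μ : Measure E := Measure.addHaar
  have hδ : 0 < r / 2 := by positivity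
  have hρ : 0 < R + r / 2 := by positivity
  set A := ⋃ c ∈ s, ball (c : E) (r / 2) with hA
  have D : Set.Pairwise (s : Set E) (Function.onFun Disjoint (fun c => ball (c : E) (r / 2))) := by
    rintro c hc d hd hcd
    apply ball_disjoint_ball
    rw [dist_eq_norm]
    have := h c hc d hd hcd
    linarith
  have A_subset : A ⊆ ball (0 : E) (R + r / 2) := by
    refine Set.iUnion₂_subset fun x hx => ?_
    apply ball_subset_ball'
    rw [dist_zero_right]
    have := hs x hx
    linarith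
  have I : (s.card : ℝ≥0∞) * ENNReal.ofReal ((r / 2) ^ finrank ℝ E) * μ (ball 0 1) ≤
      ENNReal.ofReal ((R + r / 2) ^ finrank ℝ E) * μ (ball 0 1) :=
    calc
      (s.card : ℝ≥0∞) * ENNReal.ofReal ((r / 2) ^ finrank ℝ E) * μ (ball 0 1) = μ A := by
        rw [hA, measure_biUnion_finset D fun c _ => measurableSet_ball]
        simp only [μ.addHaar_ball_of_pos _ hδ]
        simp only [Finset.sum_const, nsmul_eq_mul, mul_assoc]
      _ ≤ μ (ball (0 : E) (R + r / 2)) := measure_mono A_subset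
      _ = ENNReal.ofReal ((R + r / 2) ^ finrank ℝ E) * μ (ball 0 1) := by
        simp only [μ.addHaar_ball_of_pos _ hρ]
  have J : (s.card : ℝ≥0∞) * ENNReal.ofReal ((r / 2) ^ finrank ℝ E) ≤
      ENNReal.ofReal ((R + r / 2) ^ finrank ℝ E) :=
    (ENNReal.mul_le_mul_iff_left (measure_ball_pos _ _ zero_lt_one).ne' measure_ball_lt_top.ne).1 I
  have K : (s.card : ℝ) * (r / 2) ^ finrank ℝ E ≤ (R + r / 2) ^ finrank ℝ E := by
    have := ENNReal.toReal_le_of_le_ofReal (pow_nonneg hρ.le _) J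
    rwa [ENNReal.toReal_mul, ENNReal.toReal_natCast, ENNReal.toReal_ofReal (by positivity)] at this
  have e1 : (2 * R + r) / r = (R + r / 2) / (r / 2) := by field_simp
  rw [e1, div_pow, le_div_iff₀ (by positivity)]
  exact K

theorem cover_ball {E : Type*} [NormedAddCommGroup E] [NormedSpace ℝ E] [FiniteDimensional ℝ E]
    (R r : ℝ) (hr : 0 < r) (hrR : r ≤ R) :
    ∃ F : Finset E, (F.card : ℝ) ≤ (3 * R / r) ^ finrank ℝ E ∧
      ∀ x : E, ‖x‖ ≤ R → ∃ y ∈ F, ‖x - y‖ ≤ r := by
  classical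
  by_contra H
  push Not at H
  have hR : 0 ≤ R := by linarith
  have hle : (2 * R + r) / r ≤ 3 * R / r := by
    apply div_le_div_of_nonneg_right _ hr.le
    linarith
  have hbd : ∀ s : Finset E, (∀ c ∈ s, ‖c‖ ≤ R) → (∀ c ∈ s, ∀ d ∈ s, c ≠ d → r ≤ ‖c - d‖) →
      (s.card : ℝ) ≤ (3 * R / r) ^ finrank ℝ E := by
    intro s h1 h2
    exact (card_sep s R r hr hR h1 h2).trans (pow_le_pow_left₀ (by positivity) hle _)
  have key : ∀ n : ℕ, ∃ s : Finset E, s.card = n ∧ (∀ c ∈ s, ‖c‖ ≤ R) ∧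
      (∀ c ∈ s, ∀ d ∈ s, c ≠ d → r ≤ ‖c - d‖) := by
    intro n
    induction n with
    | zero => exact ⟨∅, rfl, by simp, by simp⟩
    | succ n ih =>
      obtain ⟨s, hs, h1, h2⟩ := ih
      obtain ⟨x, hx, hx2⟩ := H s (hbd s h1 h2)
      have hxs : x ∉ s := by
        intro hxs
        have := hx2 x hxs
        rw [sub_self, norm_zero] at this
        linarith
      refine ⟨insert x s, by rw [Finset.card_insert_of_notMem hxs, hs], ?_, ?_⟩
      · intro c hc
        rcases Finset.mem_insert.1 hc with rfl | hc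
        · exact hx
        · exact h1 c hc
      · intro c hc d hd hcd
        rcases Finset.mem_insert.1 hc with hc' | hc'
        · rcases Finset.mem_insert.1 hd with hd' | hd'
          · exact absurd (hc'.trans hd'.symm) hcd
          · rw [hc']; exact (hx2 d hd').le
        · rcases Finset.mem_insert.1 hd with hd' | hd'
          · rw [hd', norm_sub_rev]; exact (hx2 c hc').le
          · exact h2 c hc' d hd' hcd
  obtain ⟨n, hn⟩ := exists_nat_gt ((3 * R / r) ^ finrank ℝ E)
  obtain ⟨s, hs, h1, h2⟩ := key n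
  have := hbd s h1 h2
  rw [hs] at this
  linarith

end Pool.Agent.H30.MD
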