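import Pool.Agent.H30.MD.Cover

set_option autoImplicit false
set_option linter.unusedSectionVars false

namespace Pool.Agent.H30.MD

open MeasureTheory Module Metric Matrix Filter Topology
open scoped ENNReal

/-- null sets by coverings with balls -/
theorem null_of_cover {E : Type*} [NormedAddCommGroup E] [NormedSpace ℝ E] [FiniteDimensional ℝ E]
    [MeasurableSpace E] [BorelSpace E] (μ : Measure E) [μ.IsAddHaarMeasure] (A : Set E)
    (C₁ C₂ ρ₀ : ℝ) (hρ₀ : 0 < ρ₀) (hC₁ : 0 ≤ C₁) (hC₂ : 0 ≤ C₂)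
    (h : ∀ ρ : ℝ, 0 < ρ → ρ ≤ ρ₀ → ∃ G : Finset E, (G.card : ℝ) * ρ ^ finrank ℝ E ≤ C₁ * ρ ∧
      ∀ x ∈ A, ∃ y ∈ G, ‖x - y‖ ≤ C₂ * ρ) : μ A = 0 := by
  set K := μ (closedBall (0 : E) 1) with hK
  have hKfin : K ≠ ⊤ := measure_closedBall_lt_top.ne
  have key : ∀ ρ : ℝ, 0 < ρ → ρ ≤ ρ₀ →
      μ A ≤ ENNReal.ofReal (C₁ * C₂ ^ finrank ℝ E * ρ) * K := by
    intro ρ hρ hρ1
    obtain ⟨G, hG, hc⟩ := h ρ hρ hρ1
    have hsub : A ⊆ ⋃ y ∈ G, closedBall y (C₂ * ρ) := by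
      intro x hx
      obtain ⟨y, hy, hxy⟩ := hc x hx
      refine Set.mem_iUnion₂.2 ⟨y, hy, ?_⟩
      rw [mem_closedBall, dist_eq_norm]
      exact hxy
    calc μ A ≤ μ (⋃ y ∈ G, closedBall y (C₂ * ρ)) := measure_mono hsub
      _ ≤ ∑ y ∈ G, μ (closedBall y (C₂ * ρ)) := measure_biUnion_finset_le G _
      _ = ∑ y ∈ G, ENNReal.ofReal ((C₂ * ρ) ^ finrank ℝ E) * K := by
          apply Finset.sum_congr rfl
          intro y _
          rw [μ.addHaar_closedBall' y (by positivity)]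
      _ = ENNReal.ofReal ((G.card : ℝ) * (C₂ * ρ) ^ finrank ℝ E) * K := by
          rw [Finset.sum_const, nsmul_eq_mul, ← mul_assoc,
            ENNReal.ofReal_mul (by positivity), ENNReal.ofReal_natCast]
      _ ≤ ENNReal.ofReal (C₁ * C₂ ^ finrank ℝ E * ρ) * K := by
          refine mul_le_mul_left (ENNReal.ofReal_le_ofReal ?_) K
          calc (G.card : ℝ) * (C₂ * ρ) ^ finrank ℝ E
              = C₂ ^ finrank ℝ E * ((G.card : ℝ) * ρ ^ finrank ℝ E) := by rw [mul_pow]; ring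
            _ ≤ C₂ ^ finrank ℝ E * (C₁ * ρ) := by gcongr
            _ = C₁ * C₂ ^ finrank ℝ E * ρ := by ring
  have lim : Tendsto (fun ρ : ℝ => ENNReal.ofReal (C₁ * C₂ ^ finrank ℝ E * ρ) * K) (𝓝[>] 0)
      (𝓝 0) := by
    have h1 : Tendsto (fun ρ : ℝ => ENNReal.ofReal (C₁ * C₂ ^ finrank ℝ E * ρ)) (𝓝[>] 0)
        (𝓝 (ENNReal.ofReal (C₁ * C₂ ^ finrank ℝ E * 0))) := by
      apply ENNReal.tendsto_ofReal
      apply Tendsto.const_mul
      exact nhdsWithin_le_nhds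
    rw [mul_zero, ENNReal.ofReal_zero] at h1
    have h2 := ENNReal.Tendsto.mul_const (b := K) h1 (Or.inr hKfin)
    rwa [zero_mul] at h2
  have : μ A ≤ 0 := by
    apply ge_of_tendsto lim
    filter_upwards [Ioc_mem_nhdsGT hρ₀] with ρ hρ
    exact key ρ hρ.1 hρ.2
  exact le_antisymm this (zero_le)

variable {N : Type} [Fintype N] [DecidableEq N]

theorem norm_mulVec_le' (A : Matrix N N ℂ) (a : ℝ) (ha : 0 ≤ a) (hA : ∀ k l, ‖A k l‖ ≤ a)
    (v : N → ℂ) : ‖A *ᵥ v‖ ≤ Fintype.card N * a * ‖v‖ := by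
  rw [pi_norm_le_iff_of_nonneg (by positivity)]
  intro k
  rw [mulVec, dotProduct]
  refine (norm_sum_le _ _).trans ?_
  calc ∑ l, ‖A k l * v l‖ ≤ ∑ _l : N, a * ‖v‖ := by
        apply Finset.sum_le_sum
        intro l _
        rw [norm_mul]
        exact mul_le_mul (hA k l) (norm_le_pi_norm v l) (norm_nonneg _) ha
    _ = Fintype.card N * a * ‖v‖ := by
        rw [Finset.sum_const, Finset.card_univ, nsmul_eq_mul, mul_assoc]

/-- The map `c ↦ P c η`. -/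
noncomputable def Lmap (P : Matrix N N ℂ) (η : N → ℂ) : (N → N → ℂ) →ₗ[ℂ] (N → ℂ) where
  toFun c := P *ᵥ (Matrix.of c *ᵥ η)
  map_add' a b := by
    rw [← Matrix.mulVec_add, ← Matrix.add_mulVec]; rfl
  map_smul' t a := by
    rw [RingHom.id_apply, ← Matrix.mulVec_smul, ← Matrix.smul_mulVec]; rfl

theorem exists_coord (η : N → ℂ) (hη : 1 / 2 ≤ ‖η‖) : ∃ l, 1 / 2 ≤ ‖η l‖ := by
  by_contra H
  push Not at H
  have := (pi_norm_lt_iff (x := η) (r := 1 / 2) (by norm_num)).2 H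
  linarith

/-- a matrix of controlled size with `m η = v` -/
theorem exists_mat (η : N → ℂ) (hη : 1 / 2 ≤ ‖η‖) (v : N → ℂ) :
    ∃ m : N → N → ℂ, Matrix.of m *ᵥ η = v ∧ ‖m‖ ≤ 2 * ‖v‖ := by
  obtain ⟨l, hl⟩ := exists_coord η hη
  have hne : η l ≠ 0 := by
    intro h0
    rw [h0, norm_zero] at hl
    norm_num at hl
  refine ⟨fun k l' => if l' = l then v k / η l else 0, ?_, ?_⟩
  · ext k
    rw [mulVec, dotProduct]
    simp only [Matrix.of_apply, ite_mul, zero_mul]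
    rw [Finset.sum_ite_eq' Finset.univ l, if_pos (Finset.mem_univ _)]
    field_simp
  · rw [pi_norm_le_iff_of_nonneg (by positivity)]
    intro k
    rw [pi_norm_le_iff_of_nonneg (by positivity)]
    intro l'
    show ‖if l' = l then v k / η l else 0‖ ≤ _
    split_ifs with h
    · rw [norm_div, div_le_iff₀ (by positivity)]
      calc ‖v k‖ ≤ ‖v‖ := norm_le_pi_norm v k
        _ = 2 * ‖v‖ * (1 / 2) := by ring
        _ ≤ 2 * ‖v‖ * ‖η l‖ := by gcongr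
    · rw [norm_zero]; positivity

theorem range_Lmap (P : Matrix N N ℂ) (η : N → ℂ) (hη : 1 / 2 ≤ ‖η‖) :
    LinearMap.range (Lmap P η) = LinearMap.range P.mulVecLin := by
  apply le_antisymm
  · rintro _ ⟨c, rfl⟩
    exact ⟨Matrix.of c *ᵥ η, rfl⟩
  · rintro _ ⟨v, rfl⟩
    obtain ⟨m, hm, _⟩ := exists_mat η hη v
    refine ⟨m, ?_⟩
    show P *ᵥ (Matrix.of m *ᵥ η) = P *ᵥ v
    rw [hm]

theorem finrank_ker (P : Matrix N N ℂ) (η : N → ℂ) (hη : 1 / 2 ≤ ‖η‖) :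
    P.rank + finrank ℂ (LinearMap.ker (Lmap P η)) = Fintype.card N * Fintype.card N := by
  have h := LinearMap.finrank_range_add_finrank_ker (Lmap P η)
  rw [range_Lmap P η hη] at h
  have h2 : finrank ℂ (N → N → ℂ) = Fintype.card N * Fintype.card N := by
    have := Module.finrank_matrix ℂ ℂ N N
    rw [Module.finrank_self, mul_one] at this
    exact this
  rw [h2] at h
  exact h

theorem real_finrank {V : Type*} [AddCommGroup V] [Module ℂ V] [Module ℝ V]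
    [IsScalarTower ℝ ℂ V] : finrank ℝ V = 2 * finrank ℂ V := by
  rw [← Module.finrank_mul_finrank ℝ ℂ V, Complex.finrank_real_complex]

/-- covering of the matrices which nearly satisfy the linear equation -/
theorem cover_mat (P : Matrix N N ℂ) (hP : P * P = P) (η : N → ℂ) (hη : 1 / 2 ≤ ‖η‖)
    (M w w₀ δ R ρ : ℝ) (z : Matrix N N ℂ) (hw₀ : 0 < w₀) (hw : w₀ ≤ w) (hδ : 0 ≤ δ) (hρ : 0 < ρ)
    (hρR : ρ ≤ R) (hR : 2 * M + 4 * δ / w₀ ≤ R) :
    ∃ G : Finset (N → N → ℂ),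
      (G.card : ℝ) ≤ (3 * R / ρ) ^ (2 * finrank ℂ (LinearMap.ker (Lmap P η))) ∧
      ∀ c : N → N → ℂ, ‖c‖ ≤ M →
        ‖P *ᵥ (((w : ℂ) • Matrix.of c + z) *ᵥ η)‖ ≤ δ → ∃ y ∈ G, ‖c - y‖ ≤ ρ + 4 * δ / w₀ := by
  classical
  by_cases hne : ∃ c₀ : N → N → ℂ, ‖c₀‖ ≤ M ∧ ‖P *ᵥ (((w : ℂ) • Matrix.of c₀ + z) *ᵥ η)‖ ≤ δ
  swap
  · refine ⟨∅, ?_, ?_⟩
    · rw [Finset.card_empty, Nat.cast_zero]
      have : 0 ≤ R := by linarith
      positivity
    · intro c h1 h2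
      exact absurd ⟨c, h1, h2⟩ hne
  obtain ⟨c₀, hc₀, hc₀'⟩ := hne
  obtain ⟨F, hF, hF'⟩ := cover_ball (E := LinearMap.ker (Lmap P η)) R ρ hρ hρR
  have hfr : finrank ℝ (LinearMap.ker (Lmap P η)) =
      2 * finrank ℂ (LinearMap.ker (Lmap P η)) := real_finrank
  rw [hfr] at hF
  refine ⟨F.image (fun k : LinearMap.ker (Lmap P η) => c₀ + (k : N → N → ℂ)), ?_, ?_⟩
  · refine le_trans ?_ hF
    exact_mod_cast Finset.card_image_le
  · intro c hc hc'
    have hwpos : 0 < w := lt_of_lt_of_le hw₀ hw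
    -- the difference
    have hd : ‖Lmap P η (c - c₀)‖ ≤ 2 * δ / w₀ := by
      have e : (w : ℂ) • Lmap P η (c - c₀) = P *ᵥ (((w : ℂ) • Matrix.of c + z) *ᵥ η) -
          P *ᵥ (((w : ℂ) • Matrix.of c₀ + z) *ᵥ η) := by
        rw [← Matrix.mulVec_sub, ← Matrix.sub_mulVec, add_sub_add_right_eq_sub, ← smul_sub,
          Matrix.smul_mulVec, Matrix.mulVec_smul]
        rfl
      have e2 : w * ‖Lmap P η (c - c₀)‖ ≤ 2 * δ := by
        have : ‖(w : ℂ) • Lmap P η (c - c₀)‖ = w * ‖Lmap P η (c - c₀)‖ := by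
          rw [norm_smul, Complex.norm_real, Real.norm_of_nonneg hwpos.le]
        rw [← this, e]
        calc _ ≤ δ + δ := (norm_sub_le _ _).trans (add_le_add hc' hc₀')
          _ = 2 * δ := by ring
      rw [le_div_iff₀ hw₀, mul_comm]
      exact le_trans (mul_le_mul_of_nonneg_right hw (norm_nonneg _)) e2
    obtain ⟨m, hm, hm'⟩ := exists_mat η hη (Lmap P η (c - c₀))
    have hmn : ‖m‖ ≤ 4 * δ / w₀ := by
      refine hm'.trans ?_
      calc 2 * ‖Lmap P η (c - c₀)‖ ≤ 2 * (2 * δ / w₀) := by gcongr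
        _ = 4 * δ / w₀ := by ring
    have hker : c - c₀ - m ∈ LinearMap.ker (Lmap P η) := by
      rw [LinearMap.mem_ker, map_sub]
      have : Lmap P η m = Lmap P η (c - c₀) := by
        show P *ᵥ (Matrix.of m *ᵥ η) = _
        rw [hm]
        show P *ᵥ (P *ᵥ (Matrix.of (c - c₀) *ᵥ η)) = P *ᵥ (Matrix.of (c - c₀) *ᵥ η)
        rw [Matrix.mulVec_mulVec, hP]
      rw [this, sub_self]
    have hbd : ‖(⟨c - c₀ - m, hker⟩ : LinearMap.ker (Lmap P η))‖ ≤ R := by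
      show ‖c - c₀ - m‖ ≤ R
      calc ‖c - c₀ - m‖ ≤ ‖c - c₀‖ + ‖m‖ := norm_sub_le _ _
        _ ≤ (M + M) + 4 * δ / w₀ := by
            gcongr
            exact (norm_sub_le _ _).trans (add_le_add hc hc₀)
        _ ≤ R := by linarith
    obtain ⟨y, hy, hy'⟩ := hF' _ hbd
    refine ⟨c₀ + y, Finset.mem_image_of_mem _ hy, ?_⟩
    have hy'' : ‖c - c₀ - m - (y : N → N → ℂ)‖ ≤ ρ := hy'
    calc ‖c - (c₀ + (y : N → N → ℂ))‖ = ‖(c - c₀ - m - (y : N → N → ℂ)) + m‖ := by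
          congr 1; abel
      _ ≤ ρ + 4 * δ / w₀ := (norm_add_le _ _).trans (add_le_add hy'' hmn)

end Pool.Agent.H30.MD
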